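import Pool.Agent.Helper70.GM.ClassesB
import Pool.Agent.Helper47.GM.Q3
import Pool.Agent.Helper77.GM.Num

/-!
# Project GM, block `classesB`: the statement without hypotheses
-/

open MeasureTheory Real Set Filter Topology

set_option autoImplicit false

namespace Pool.Agent.Helper60.GM

open Pool.Agent.Helper92.GC (dt tp Tq uu tt arc dd sqa m6)
open Pool.Agent.Helper60.RT (R2 cn FR sp Pr prs ctr lf2 ln2 Dec12)

/-- case B: all arcs by the minimal height of the vectors near the arc -/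
theorem classesB {η ε₀ B₀ B L : ℝ} {M : ℕ} (hη : 0 < η) (hε₀ : 0 < ε₀) (hB₀ : 1 ≤ B₀) (hB : 1 ≤ B) (hL : 1 ≤ L) (hM : 2 ≤ M) : ∃ C : ℝ, 1 ≤ C ∧
    ∀ (F : Fam), F.Ok B₀ → ∀ (X σ s₀ l : ℝ) (N m₀ m₂ r₀ : ℕ), ParG F M ε₀ L X σ s₀ l N m₀ m₂ r₀ → (M : ℝ) ^ (5 * m₀) ≤ X * N → σ * (l * (X * N)) ≤ L * ((X * N) ^ ε₀ * (M : ℝ) ^ (3 * m₂ + 3)) →
        SG F s₀ l B X (arc 0 (cn N) (M ^ m₀) r₀) (M ^ m₂) (Finset.range (M ^ m₂)) ≤ ENNReal.ofReal (C * X ^ η * FR X N) :=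
  classesB_of hη hε₀ hB₀ hB hL hM (fun _ h => sec_bdG h hB₀ hB) (fun _ h => num_B h)

end Pool.Agent.Helper60.GM
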