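import Pool.Agent.Helper60.GM.Defs
import Pool.Agent.Helper70.RT.K12
import Pool.Agent.Helper77.RT.Num
import Pool.Agent.Helper33.RT.K

/-!
# Project GM, block `classesB`: all arcs by the minimal height of the vectors near the arc
-/

open MeasureTheory Real Set Filter Topology

set_option autoImplicit false

namespace Pool.Agent.Helper60.GM

open Pool.Agent.Helper22.AE
open Pool.Agent.Helper92.GC (dt tp Tq uu tt arc dd sqa m6)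
open Pool.Agent.Helper92.DT (m12 IsMul12)
open Pool.Agent.Helper60.LT (Fr Tf xf yf df vf fr ac co Cut BB PP)
open Pool.Agent.Helper60.QL (nm Cone)
open Pool.Agent.Helper60.RT (R2 cn FR sp Pr prs ctr lf2 ln2 Dec12)

/-- the primitive part of a vector -/
theorem prim70 {k : ℤ × ℤ} (hk : 0 < k.1) : ∃ n : ℤ × ℤ, Pr n ∧ sp n = tt 0 k ∧
    (k.1 : ℝ) = n.1 * (Int.gcd k.1 k.2 : ℝ) ∧ n.1 ≤ k.1 := by
  have hg : 0 < Int.gcd k.1 k.2 := Int.gcd_pos_of_ne_zero_left _ hk.ne'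
  obtain ⟨a, b, hab, ha, hb⟩ := Int.exists_gcd_one hg
  have hgz : (0 : ℤ) < (Int.gcd k.1 k.2 : ℤ) := by exact_mod_cast hg
  have hgr : (0 : ℝ) < (Int.gcd k.1 k.2 : ℝ) := by exact_mod_cast hg
  have ha0 : 0 < a := by
    by_contra h
    push Not at h
    have : k.1 ≤ 0 := by
      rw [ha]
      exact mul_nonpos_of_nonpos_of_nonneg h hgz.le
    omega
  have har : (k.1 : ℝ) = a * (Int.gcd k.1 k.2 : ℝ) := by exact_mod_cast ha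
  have hbr : (k.2 : ℝ) = b * (Int.gcd k.1 k.2 : ℝ) := by exact_mod_cast hb
  refine ⟨(a, b), ⟨Int.isCoprime_iff_gcd_eq_one.2 hab, ha0⟩, ?_, har, ?_⟩
  · unfold sp tt uu
    rw [zero_mul, add_zero, har, hbr]
    simp only
    rw [mul_div_mul_right _ _ hgr.ne']
  · show a ≤ k.1
    rw [ha]
    nlinarith only [hg, ha, hk]

theorem cn_pos70 {N : ℕ} {k : ℤ × ℤ} (hk : k ∈ cn N) :
    0 < k.1 ∧ (k.1 : ℝ) < 2 * N ∧ |tt 0 k| ≤ 1 := by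
  unfold cn sqa at hk
  rw [Finset.mem_filter, Finset.mem_filter] at hk
  obtain ⟨⟨_, h1, h2, h3⟩, h4, h5⟩ := hk
  have h0 : 0 < k.1 := by omega
  have h0r : (0 : ℝ) < k.1 := by exact_mod_cast h0
  refine ⟨h0, ?_, ?_⟩
  · rw [abs_of_pos h0] at h2
    exact_mod_cast h2
  · unfold tt uu
    rw [zero_mul, add_zero, abs_div, abs_of_pos h0r, div_le_one h0r, abs_le]
    constructor
    · have : -k.1 ≤ k.2 := h4.le
      exact_mod_cast this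
    · exact_mod_cast h5

theorem RN_empty70 (F : Fam) (s₀ l B X : ℝ) : RN F s₀ l B X ∅ = 0 := by
  unfold RN mf m12 tp
  simp

/-- a class of arcs with a common bound -/
theorem cls_card70 {T : Finset ℕ} {a : ℕ → ENNReal} {R Z c : ℝ} (_hR : 0 ≤ R) (hc : (T.card : ℝ) ≤ c) (ha : ∀ r ∈ T, a r ≤ ENNReal.ofReal R)
    (hZ : c ^ 6 * R ≤ Z) : ∑ r ∈ T, a r ^ (1 / 6 : ℝ) ≤ ENNReal.ofReal Z ^ (1 / 6 : ℝ) := by
  have hc0 : 0 ≤ c := (Nat.cast_nonneg _).trans hc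
  calc ∑ r ∈ T, a r ^ (1 / 6 : ℝ) ≤ ∑ _r ∈ T, ENNReal.ofReal R ^ (1 / 6 : ℝ) :=
        Finset.sum_le_sum fun r hr => ENNReal.rpow_le_rpow (ha r hr) (by norm_num)
    _ = (T.card : ENNReal) * ENNReal.ofReal R ^ (1 / 6 : ℝ) := by
        rw [Finset.sum_const, nsmul_eq_mul]
    _ ≤ ENNReal.ofReal c * ENNReal.ofReal R ^ (1 / 6 : ℝ) := by
        gcongr
        rw [← ENNReal.ofReal_natCast]
        exact ENNReal.ofReal_le_ofReal hc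
    _ = (ENNReal.ofReal (c ^ 6 * R)) ^ (1 / 6 : ℝ) := by
        rw [ENNReal.ofReal_mul (by positivity), ENNReal.mul_rpow_of_nonneg _ _ (by norm_num)]
        congr 1
        rw [ENNReal.ofReal_pow hc0, ← ENNReal.rpow_natCast, ← ENNReal.rpow_mul]
        norm_num
    _ ≤ ENNReal.ofReal Z ^ (1 / 6 : ℝ) :=
        ENNReal.rpow_le_rpow (ENNReal.ofReal_le_ofReal hZ) (by norm_num)

/-- the sum of two sixth powers -/
theorem six70 (J M₂ : ℕ) {Z : ℝ} (hZ : 0 ≤ Z) :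
    ((J : ENNReal) * ENNReal.ofReal Z ^ (1 / 6 : ℝ) + M₂) ^ (6 : ℝ) ≤ ENNReal.ofReal (32 * ((J : ℝ) ^ 6 * Z + (M₂ : ℝ) ^ 6)) := by
  have h1 := ENNReal.rpow_add_le_mul_rpow_add_rpow ((J : ENNReal) * ENNReal.ofReal Z ^ (1 / 6 : ℝ)) (M₂ : ENNReal) (by norm_num : (1 : ℝ) ≤ 6)
  refine h1.trans (le_of_eq ?_)
  have e1 : ((J : ENNReal) * ENNReal.ofReal Z ^ (1 / 6 : ℝ)) ^ (6 : ℝ) = ENNReal.ofReal ((J : ℝ) ^ 6 * Z) := by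
    rw [ENNReal.mul_rpow_of_nonneg _ _ (by norm_num), ← ENNReal.rpow_mul, ENNReal.ofReal_mul (by positivity),
      ENNReal.ofReal_pow (by positivity), ENNReal.ofReal_natCast]
    norm_num
  have e2 : (M₂ : ENNReal) ^ (6 : ℝ) = ENNReal.ofReal ((M₂ : ℝ) ^ 6) := by
    rw [ENNReal.ofReal_pow (by positivity), ENNReal.ofReal_natCast]
    exact_mod_cast ENNReal.rpow_natCast (M₂ : ENNReal) 6
  have e3 : (2 : ENNReal) ^ ((6 : ℝ) - 1) = ENNReal.ofReal 32 := by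
    have : ((6 : ℝ) - 1) = ((5 : ℕ) : ℝ) := by norm_num
    rw [this, ENNReal.rpow_natCast]
    norm_num
  rw [e1, e2, e3, ← ENNReal.ofReal_add (by positivity) (by positivity), ← ENNReal.ofReal_mul (by norm_num)]

/-- the height of the nearest primitive vector -/
theorem cls70 {N₁ N₂ r₀ N : ℕ} (hN₁ : 1 ≤ N₁) (hN : N₁ ≤ N₂) : ∃ cl : ℕ → ℕ, ∀ r : ℕ, (arc 0 (arc 0 (cn N) N₁ r₀) N₂ r).Nonempty →
    2 ^ cl r ≤ 2 * N ∧ |ctr N₂ r - ctr N₁ r₀| ≤ 12 / N₁ ∧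
    (∃ n : ℤ × ℤ, Pr n ∧ (2 : ℝ) ^ cl r ≤ n.1 ∧ (n.1 : ℝ) ≤ 2 * 2 ^ cl r ∧ |sp n - ctr N₂ r| ≤ 24 / N₂) ∧
    ∀ k ∈ arc 0 (arc 0 (cn N) N₁ r₀) N₂ r, (2 : ℝ) ^ cl r * (Int.gcd k.1 k.2 : ℝ) ≤ k.1 := by
  classical
  have hN₂ : 1 ≤ N₂ := hN₁.trans hN
  have a1 : (0 : ℝ) < N₁ := by exact_mod_cast hN₁
  have a2 : (0 : ℝ) < N₂ := by exact_mod_cast hN₂
  have a3 : (N₁ : ℝ) ≤ N₂ := by exact_mod_cast hN
  have a4 : (6 : ℝ) / N₂ ≤ 6 / N₁ := div_le_div_of_nonneg_left (by norm_num) a1 a3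
  have a5 : (6 : ℝ) / N₂ ≤ 24 / N₂ := div_le_div_of_nonneg_right (by norm_num) a2.le
  let h : ℕ → ℕ := fun r => sInf {m : ℕ | ∃ n : ℤ × ℤ, Pr n ∧ |sp n - ctr N₂ r| ≤ 24 / N₂ ∧ n.1 = m}
  refine ⟨fun r => Nat.log 2 (h r), fun r hr => ?_⟩
  have hsub : arc 0 (arc 0 (cn N) N₁ r₀) N₂ r ⊆ arc 0 (cn N) N₁ r₀ := Finset.filter_subset _ _
  have hsub' : arc 0 (cn N) N₁ r₀ ⊆ cn N := Finset.filter_subset _ _
  have hnear : ∀ k ∈ arc 0 (arc 0 (cn N) N₁ r₀) N₂ r, |tt 0 k - ctr N₂ r| ≤ 6 / N₂ := fun k hk =>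
    Pool.Agent.Helper60.RT.arc_near hN₂ hsub' hk
  have hmem : ∀ k ∈ arc 0 (arc 0 (cn N) N₁ r₀) N₂ r, ∃ n : ℤ × ℤ, Pr n ∧ |sp n - ctr N₂ r| ≤ 24 / N₂ ∧
      (k.1 : ℝ) = n.1 * (Int.gcd k.1 k.2 : ℝ) ∧ n.1 ≤ k.1 ∧ h r ≤ n.1.toNat := by
    intro k hk
    obtain ⟨n, hn, hsp, hkn, hle⟩ := prim70 (cn_pos70 (hsub' (hsub hk))).1
    have h1 : |sp n - ctr N₂ r| ≤ 24 / N₂ := by
      rw [hsp]
      exact (hnear k hk).trans a5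
    refine ⟨n, hn, h1, hkn, hle, Nat.sInf_le ⟨n, hn, h1, ?_⟩⟩
    exact (Int.toNat_of_nonneg hn.2.le).symm
  obtain ⟨k₀, hk₀⟩ := hr
  obtain ⟨n₀, hn₀, b1, b2, b3, b4⟩ := hmem k₀ hk₀
  have hne : {m : ℕ | ∃ n : ℤ × ℤ, Pr n ∧ |sp n - ctr N₂ r| ≤ 24 / N₂ ∧ n.1 = m}.Nonempty :=
    ⟨n₀.1.toNat, n₀, hn₀, b1, (Int.toNat_of_nonneg hn₀.2.le).symm⟩
  obtain ⟨n, hn, c1, c2⟩ := Nat.sInf_mem hne
  have c2' : n.1 = ((h r : ℕ) : ℤ) := c2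
  have hh0 : h r ≠ 0 := by
    have := hn.2
    omega
  have d1 := Nat.pow_log_le_self 2 hh0
  have d2 := Nat.lt_pow_succ_log_self (b := 2) (by norm_num) (h r)
  have e0 : (n.1 : ℝ) = ((h r : ℕ) : ℝ) := by exact_mod_cast congrArg (fun z : ℤ => (z : ℝ)) c2'
  have e1 : (2 : ℝ) ^ Nat.log 2 (h r) ≤ ((h r : ℕ) : ℝ) := by exact_mod_cast d1
  have e2 : ((h r : ℕ) : ℝ) ≤ 2 * 2 ^ Nat.log 2 (h r) := by
    have : ((h r : ℕ) : ℝ) < ((2 ^ (Nat.log 2 (h r) + 1) : ℕ) : ℝ) := by exact_mod_cast d2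
    push_cast at this
    rw [pow_succ] at this
    linarith only [this]
  refine ⟨?_, ?_, ⟨n, hn, by rw [e0]; exact e1, by rw [e0]; exact e2, c1⟩, ?_⟩
  · have f1 := (cn_pos70 (hsub' (hsub hk₀))).2.1
    have f2 : k₀.1 < 2 * (N : ℤ) := by exact_mod_cast f1
    have f3 : (h r : ℤ) ≤ n₀.1 := by
      have := Int.toNat_of_nonneg hn₀.2.le
      omega
    show 2 ^ Nat.log 2 (h r) ≤ 2 * N
    omega
  · have f1 := hnear k₀ hk₀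
    have f2 := Pool.Agent.Helper60.RT.arc_near hN₁ (Finset.Subset.refl (cn N)) (hsub hk₀)
    have f3 : ctr N₂ r - ctr N₁ r₀ = (tt 0 k₀ - ctr N₁ r₀) - (tt 0 k₀ - ctr N₂ r) := by ring
    rw [f3]
    have f4 : (12 : ℝ) / N₁ = 6 / N₁ + 6 / N₁ := by ring
    rw [f4]
    exact (abs_sub _ _).trans (add_le_add f2 (f1.trans a4))
  · intro k hk
    obtain ⟨n', hn', -, g2, -, g4⟩ := hmem k hk
    rw [g2]
    refine mul_le_mul_of_nonneg_right ?_ (Nat.cast_nonneg _)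
    have g5 : ((h r : ℕ) : ℤ) ≤ n'.1 := by
      have := Int.toNat_of_nonneg hn'.2.le
      omega
    have g6 : ((h r : ℕ) : ℝ) ≤ (n'.1 : ℝ) := by exact_mod_cast g5
    exact e1.trans g6

/-- the parameters of case B -/
theorem parB70 {M m₀ m₂ : ℕ} {K σ l L κ : ℝ} (hM : 1 ≤ M) (hL : 1 ≤ L) (hK : 1 ≤ K) (hκ : 0 < κ)
    (k1 : (M : ℝ) ^ (4 * m₂) ≤ K) (σm : κ ≤ σ * (M : ℝ) ^ m₀) (l1 : 1 ≤ l * (M : ℝ) ^ m₀) (h5 : (M : ℝ) ^ (5 * m₀) ≤ K)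
    (h : σ * (l * K) ≤ L * (κ * (M : ℝ) ^ (3 * m₂ + 3))) :
    1 ≤ L ^ 4 * (M : ℝ) ^ 12 * ((1 / (M : ℝ) ^ m₀) ^ 5 * K) ∧ (1 / (M : ℝ) ^ m₀) ^ 8 * K ≤ L ^ 4 * (M : ℝ) ^ 12 ∧
    1 ≤ L ^ 4 * (M : ℝ) ^ 12 * ((1 / (M : ℝ) ^ m₂) ^ 4 * K) ∧ (1 / (M : ℝ) ^ m₂) ^ 3 * ((1 / (M : ℝ) ^ m₀) ^ 2 * K) ≤ L ^ 4 * (M : ℝ) ^ 12 := by
  have hM1 : (1 : ℝ) ≤ M := by exact_mod_cast hM
  obtain ⟨a, ha⟩ : ∃ a : ℝ, a = (M : ℝ) ^ m₀ := ⟨_, rfl⟩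
  obtain ⟨c, hc⟩ : ∃ c : ℝ, c = (M : ℝ) ^ m₂ := ⟨_, rfl⟩
  have ha0 : 0 < a := by rw [ha]; positivity
  have hc0 : 0 < c := by rw [hc]; positivity
  have e1 : (M : ℝ) ^ (4 * m₂) = c ^ 4 := by rw [hc, ← pow_mul, mul_comm]
  have e2 : (M : ℝ) ^ (5 * m₀) = a ^ 5 := by rw [ha, ← pow_mul, mul_comm]
  have e3 : (M : ℝ) ^ (3 * m₂ + 3) = c ^ 3 * (M : ℝ) ^ 3 := by rw [hc, ← pow_mul, pow_add, mul_comm 3 m₂]
  rw [e1] at k1
  rw [e2] at h5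
  rw [e3] at h
  rw [← ha] at σm l1
  rw [← ha, ← hc]
  have hb : 1 ≤ L ^ 4 * (M : ℝ) ^ 12 := one_le_mul_of_one_le_of_one_le (one_le_pow₀ hL) (one_le_pow₀ hM1)
  have hK0 : 0 < K := by linarith
  have q1 : 1 ≤ (1 / a) ^ 5 * K := by
    rw [one_div, inv_pow, inv_mul_eq_div, le_div_iff₀ (by positivity), one_mul]
    exact h5
  have q2 : 1 ≤ (1 / c) ^ 4 * K := by
    rw [one_div, inv_pow, inv_mul_eq_div, le_div_iff₀ (by positivity), one_mul]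
    exact k1
  have hl0 : 0 < l := by
    by_contra hneg
    push Not at hneg
    have : l * a ≤ 0 := mul_nonpos_of_nonpos_of_nonneg hneg ha0.le
    linarith
  -- `K ≤ L M³ a² c³`
  have q3 : K ≤ L * (M : ℝ) ^ 3 * a ^ 2 * c ^ 3 := by
    have f1 : κ * K ≤ κ * (L * (M : ℝ) ^ 3 * a ^ 2 * c ^ 3) := by
      calc κ * K = κ * 1 * K := by ring
        _ ≤ (σ * a) * (l * a) * K := by
            refine mul_le_mul_of_nonneg_right ?_ hK0.le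
            exact mul_le_mul σm l1 zero_le_one (hκ.le.trans σm)
        _ = (σ * (l * K)) * a ^ 2 := by ring
        _ ≤ (L * (κ * (c ^ 3 * (M : ℝ) ^ 3))) * a ^ 2 := by gcongr
        _ = _ := by ring
    exact le_of_mul_le_mul_left f1 hκ
  have q4 : (1 / c) ^ 3 * ((1 / a) ^ 2 * K) ≤ L * (M : ℝ) ^ 3 := by
    have : (1 / c) ^ 3 * ((1 / a) ^ 2 * K) = K / (a ^ 2 * c ^ 3) := by field_simp
    rw [this, div_le_iff₀ (by positivity)]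
    linarith only [q3]
  have q5 : L * (M : ℝ) ^ 3 ≤ L ^ 4 * (M : ℝ) ^ 12 := by
    have g1 : L ≤ L ^ 4 := le_self_pow₀ hL (by norm_num)
    have g2 : (M : ℝ) ^ 3 ≤ (M : ℝ) ^ 12 := pow_le_pow_right₀ hM1 (by norm_num)
    gcongr
  have q6 : (1 / a) ^ 8 * K ≤ L ^ 4 * (M : ℝ) ^ 12 := by
    have g1 : ((1 / c) ^ 3 * ((1 / a) ^ 2 * K)) ^ 4 ≤ (L * (M : ℝ) ^ 3) ^ 4 := pow_le_pow_left₀ (by positivity) q4 4
    have g2 : ((1 / c) ^ 3 * ((1 / a) ^ 2 * K)) ^ 4 = ((1 / c) ^ 4 * K) ^ 3 * ((1 / a) ^ 8 * K) := by ring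
    have g3 : (L * (M : ℝ) ^ 3) ^ 4 = L ^ 4 * (M : ℝ) ^ 12 := by ring
    rw [g2, g3] at g1
    refine le_trans ?_ g1
    exact le_mul_of_one_le_left (by positivity) (one_le_pow₀ q2)
  refine ⟨?_, q6, ?_, q4.trans q5⟩
  · exact one_le_mul_of_one_le_of_one_le hb q1
  · exact one_le_mul_of_one_le_of_one_le hb q2

/-- the number of the classes -/
theorem log70 {δ : ℝ} (hδ : 0 < δ) {X : ℝ} {N : ℕ} (hX : 1 ≤ X) (hN : 1 ≤ N) (hNX : (N : ℝ) ≤ X) :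
    ((Nat.log 2 (2 * N) + 1 : ℕ) : ℝ) ≤ (2 + 2 / δ) * X ^ δ := by
  have h1 : 2 ^ Nat.log 2 (2 * N) ≤ 2 * N := Nat.pow_log_le_self 2 (by omega)
  obtain ⟨J, hJ⟩ : ∃ J : ℕ, J = Nat.log 2 (2 * N) := ⟨_, rfl⟩
  rw [← hJ] at h1 ⊢
  have h2 : (2 : ℝ) ^ J ≤ 2 * X := by
    have : ((2 ^ J : ℕ) : ℝ) ≤ ((2 * N : ℕ) : ℝ) := by exact_mod_cast h1
    push_cast at this
    linarith
  have h3 := Real.log_le_log (by positivity) h2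
  rw [Real.log_pow, Real.log_mul (by norm_num) (by linarith)] at h3
  have h4 : Real.log X ≤ X ^ δ / δ := Real.log_le_rpow_div (by linarith) hδ
  have h5 : (1 : ℝ) / 2 < Real.log 2 := by linarith [Real.log_two_gt_d9]
  have h6 : 0 ≤ Real.log X := Real.log_nonneg hX
  have h7 : (J : ℝ) ≤ 1 + 2 * Real.log X := by
    by_contra hcon
    push Not at hcon
    have h8 : (J : ℝ) * Real.log 2 - Real.log 2 ≤ Real.log X := by linarith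
    have h9 : ((J : ℝ) - 1) * Real.log 2 ≤ Real.log X := by linarith
    have h10 : 2 * Real.log X * Real.log 2 < ((J : ℝ) - 1) * Real.log 2 := by
      refine mul_lt_mul_of_pos_right ?_ (by linarith)
      linarith
    nlinarith only [h3, h10, h5, h6]
  have h8 : 1 ≤ X ^ δ := Real.one_le_rpow hX hδ.le
  push_cast
  have h9 : 2 * (X ^ δ / δ) = 2 / δ * X ^ δ := by ring
  calc (J : ℝ) + 1 ≤ 2 * 1 + 2 * (X ^ δ / δ) := by linarith only [h4, h7]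
    _ ≤ 2 * X ^ δ + 2 / δ * X ^ δ := by rw [h9]; linarith only [h8]
    _ = _ := by ring

theorem classesB_of {η ε₀ B₀ B L : ℝ} {M : ℕ} (hη : 0 < η) (_hε₀ : 0 < ε₀) (_hB₀ : 1 ≤ B₀) (_hB : 1 ≤ B) (hL : 1 ≤ L) (hM : 2 ≤ M)
    (hsec : ∀ η : ℝ, 0 < η → ∃ C : ℝ, 1 ≤ C ∧ ∀ (F : Fam), F.Ok B₀ → ∀ (X : ℝ) (N : ℕ) (W D τ s₀ l : ℝ) (S : Finset (ℤ × ℤ)), 1 ≤ X → 1 ≤ N →
    (N : ℝ) ≤ X → 0 ≤ W → W ≤ 2 → 1 ≤ D → In s₀ l → S ⊆ cn N → (∀ k ∈ S, |tt 0 k - τ| ≤ W) → (∀ k ∈ S, D * (Int.gcd k.1 k.2 : ℝ) ≤ k.1) →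
      RN F s₀ l B X S ≤ ENNReal.ofReal (C * X ^ (1 + η) * (N ^ 2 * W + N / D) ^ 7 * (N ^ 2 * W + (N / D) ^ 2) ^ 2 * (1 + N ^ 3 / X)))
    (hnum : ∀ b : ℝ, 1 ≤ b → ∃ C : ℝ, 1 ≤ C ∧ ∀ (X N w lam A : ℝ), 1 ≤ X → 1 ≤ N → X ^ (1 / 10 : ℝ) ≤ N → N ≤ X ^ (4 / 9 + 1 / 1000 : ℝ) → 0 < w → w ≤ b * lam → 1 ≤ b * (lam ^ 5 * (X * N)) → lam ^ 8 * (X * N) ≤ b →
    1 ≤ b * (w ^ 4 * (X * N)) → w ^ 3 * (lam ^ 2 * (X * N)) ≤ b → 0 < lam → 1 ≤ A →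
      X * ((min (1 + A ^ 2 * lam) (1 + lam / w)) ^ 6 * ((N ^ 2 * w + N / A) ^ 7 * (N ^ 2 * w + (N / A) ^ 2) ^ 2 * (1 + N ^ 3 / X))) ≤ C * FR X N) :
    ∃ C : ℝ, 1 ≤ C ∧
    ∀ (F : Fam), F.Ok B₀ → ∀ (X σ s₀ l : ℝ) (N m₀ m₂ r₀ : ℕ), ParG F M ε₀ L X σ s₀ l N m₀ m₂ r₀ → (M : ℝ) ^ (5 * m₀) ≤ X * N → σ * (l * (X * N)) ≤ L * ((X * N) ^ ε₀ * (M : ℝ) ^ (3 * m₂ + 3)) →
        SG F s₀ l B X (arc 0 (cn N) (M ^ m₀) r₀) (M ^ m₂) (Finset.range (M ^ m₂)) ≤ ENNReal.ofReal (C * X ^ η * FR X N) := by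
  classical
  have hM1 : (1 : ℝ) ≤ M := by exact_mod_cast (by omega : 1 ≤ M)
  have hb : 1 ≤ L ^ 4 * (M : ℝ) ^ 12 := one_le_mul_of_one_le_of_one_le (one_le_pow₀ hL) (one_le_pow₀ hM1)
  obtain ⟨C₁, hC₁, H₁⟩ := hsec (η / 2) (by positivity)
  obtain ⟨C₂, hC₂, H₂⟩ := hnum _ hb
  obtain ⟨C₃, hC₃, H₃⟩ := Pool.Agent.Helper60.RT.count_I
  obtain ⟨C₄, hC₄, H₄⟩ := Pool.Agent.Helper60.RT.num_bds (b := 1) le_rfl
  obtain ⟨δ, hδ⟩ : ∃ δ : ℝ, δ = η / 12 := ⟨_, rfl⟩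
  have hδ0 : 0 < δ := by rw [hδ]; positivity
  obtain ⟨Kc, hKc⟩ : ∃ Kc : ℝ, Kc = (C₃ + 2) ^ 6 * 6 ^ 9 * C₁ * C₂ := ⟨_, rfl⟩
  have hKc0 : 0 < Kc := by rw [hKc]; positivity
  refine ⟨32 * ((2 + 2 / δ) ^ 6 * Kc + C₄), ?_, ?_⟩
  · have : 0 < (2 + 2 / δ) ^ 6 * Kc := by positivity
    linarith only [hC₄, this]
  intro F hF X σ s₀ l N m₀ m₂ r₀ hP h5 hcB
  have hX := hP.X1
  have hN := hP.N1
  have hX0 : 0 < X := by linarith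
  have hN1 : (1 : ℝ) ≤ N := by exact_mod_cast hN
  have hN0 : (0 : ℝ) < N := by linarith
  have hNX : (N : ℝ) ≤ X := by
    refine hP.hi.trans ?_
    calc X ^ (4 / 9 + 1 / 1000 : ℝ) ≤ X ^ (1 : ℝ) := Real.rpow_le_rpow_of_exponent_le hX (by norm_num)
      _ = X := Real.rpow_one X
  have hK : 1 ≤ X * N := one_le_mul_of_one_le_of_one_le hX hN1
  have hK0 : 0 < X * N := by linarith
  have hFR0 : 0 ≤ FR X N := by
    unfold FR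
    positivity
  obtain ⟨N₁, hN₁⟩ : ∃ N₁ : ℕ, N₁ = M ^ m₀ := ⟨_, rfl⟩
  obtain ⟨N₂, hN₂⟩ : ∃ N₂ : ℕ, N₂ = M ^ m₂ := ⟨_, rfl⟩
  have hN₁1 : 1 ≤ N₁ := by rw [hN₁]; exact Nat.one_le_pow _ _ (by omega)
  have hN12 : N₁ ≤ N₂ := by rw [hN₁, hN₂]; exact Nat.pow_le_pow_right (by omega) hP.m
  have hN₂1 : 1 ≤ N₂ := hN₁1.trans hN12
  have a1 : (0 : ℝ) < N₁ := by exact_mod_cast hN₁1
  have a2 : (0 : ℝ) < N₂ := by exact_mod_cast hN₂1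
  have a3 : (N₁ : ℝ) ≤ N₂ := by exact_mod_cast hN12
  have eN₁ : (N₁ : ℝ) = (M : ℝ) ^ m₀ := by rw [hN₁]; push_cast; rfl
  have eN₂ : (N₂ : ℝ) = (M : ℝ) ^ m₂ := by rw [hN₂]; push_cast; rfl
  obtain ⟨p1, p2, p3, p4⟩ := parB70 (by omega : 1 ≤ M) hL hK (Real.rpow_pos_of_pos hK0 ε₀) hP.k1 hP.σm hP.l1 h5 hcB
  rw [← eN₁] at p1 p2 p4
  rw [← eN₂] at p3 p4
  rw [← hN₁, ← hN₂]
  obtain ⟨G, hG⟩ : ∃ G : Finset (ℤ × ℤ), G = arc 0 (cn N) N₁ r₀ := ⟨_, rfl⟩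
  obtain ⟨cl, hcl⟩ := cls70 (r₀ := r₀) (N := N) hN₁1 hN12
  rw [← hG] at hcl ⊢
  obtain ⟨Z, hZ⟩ : ∃ Z : ℝ, Z = Kc * X ^ (η / 2) * FR X N := ⟨_, rfl⟩
  have hZ0 : 0 ≤ Z := by rw [hZ]; positivity
  obtain ⟨J, hJ⟩ : ∃ J : ℕ, J = Nat.log 2 (2 * N) + 1 := ⟨_, rfl⟩
  set T : Finset ℕ := (Finset.range N₂).filter (fun r => (arc 0 G N₂ r).Nonempty) with hT
  -- one class
  have hclass : ∀ j : ℕ, ∑ r ∈ T.filter (fun r => cl r = j), RN F s₀ l B X (arc 0 G N₂ r) ^ (1 / 6 : ℝ) ≤ ENNReal.ofReal Z ^ (1 / 6 : ℝ) := by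
    intro j
    obtain ⟨A, hA⟩ : ∃ A : ℝ, A = 2 ^ j := ⟨_, rfl⟩
    have hA1 : 1 ≤ A := by rw [hA]; exact one_le_pow₀ (by norm_num)
    have hA0 : 0 < A := by linarith only [hA1]
    have hTj : ∀ r ∈ T.filter (fun r => cl r = j), r ∈ Finset.range N₂ ∧ |ctr N₂ r - ctr N₁ r₀| ≤ 12 / N₁ ∧
        (∃ n : ℤ × ℤ, Pr n ∧ A ≤ n.1 ∧ (n.1 : ℝ) ≤ 2 * A ∧ |sp n - ctr N₂ r| ≤ 24 / N₂) ∧
        ∀ k ∈ arc 0 G N₂ r, A * (Int.gcd k.1 k.2 : ℝ) ≤ k.1 := by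
      intro r hr
      obtain ⟨hr1, hr2⟩ := Finset.mem_filter.1 hr
      obtain ⟨hr3, hr4⟩ := Finset.mem_filter.1 hr1
      obtain ⟨-, g1, g2, g3⟩ := hcl r hr4
      rw [hr2, ← hA] at g2 g3
      exact ⟨hr3, g1, g2, g3⟩
    obtain ⟨w, hw⟩ : ∃ w : ℝ, w = 1 / (N₂ : ℝ) := ⟨_, rfl⟩
    obtain ⟨lam, hlam⟩ : ∃ lam : ℝ, lam = 1 / (N₁ : ℝ) := ⟨_, rfl⟩
    have hw0 : 0 < w := by rw [hw]; positivity
    have hlam0 : 0 < lam := by rw [hlam]; positivity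
    have hwl : w ≤ lam := by rw [hw, hlam]; exact one_div_le_one_div_of_le a1 a3
    rw [← hw] at p3 p4
    rw [← hlam] at p1 p2 p4
    -- the cardinality
    have hcard : ((T.filter (fun r => cl r = j)).card : ℝ) ≤ (C₃ + 2) * min (1 + A ^ 2 * lam) (1 + lam / w) := by
      have g1 : ((T.filter (fun r => cl r = j)).card : ℝ) ≤ C₃ * (1 + A ^ 2 * lam) := by
        refine le_trans ?_ ((H₃ N₁ N₂ r₀ A hN₁1 hN12 hA1).trans (le_of_eq (by rw [hlam])))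
        have : T.filter (fun r => cl r = j) ⊆ (Finset.range N₂).filter (fun r => |ctr N₂ r - ctr N₁ r₀| ≤ 12 / N₁ ∧ ∃ n : ℤ × ℤ, Pr n ∧ A ≤ n.1 ∧ (n.1 : ℝ) ≤ 2 * A ∧ |sp n - ctr N₂ r| ≤ 24 / N₂) := by
          intro r hr
          obtain ⟨q1, q2, q3, -⟩ := hTj r hr
          exact Finset.mem_filter.2 ⟨q1, q2, q3⟩
        exact_mod_cast Finset.card_le_card this
      have g2 : ((T.filter (fun r => cl r = j)).card : ℝ) ≤ 2 * (1 + lam / w) := by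
        have q := Pool.Agent.Helper60.RT.ctr_card70 hN₂1 (T.filter (fun r => cl r = j)) (ctr N₁ r₀) (12 / N₁) (by positivity)
          (fun r hr => (hTj r hr).2.1)
        have q1 : 12 / (N₁ : ℝ) * N₂ / 6 = 2 * (lam / w) := by
          rw [hlam, hw]
          field_simp
          ring
        rw [q1] at q
        have : 0 ≤ lam / w := by positivity
        linarith only [q]
      have g3 : 0 ≤ 1 + A ^ 2 * lam := by positivity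
      have g4 : 0 ≤ 1 + lam / w := by positivity
      rcases min_cases (1 + A ^ 2 * lam) (1 + lam / w) with ⟨hm, -⟩ | ⟨hm, -⟩
      · rw [hm]
        refine g1.trans ?_
        gcongr
        linarith only []
      · rw [hm]
        refine g2.trans ?_
        gcongr
        linarith only [hC₃]
    obtain ⟨mn, hmn⟩ : ∃ mn : ℝ, mn = min (1 + A ^ 2 * lam) (1 + lam / w) := ⟨_, rfl⟩
    have hmn0 : 0 ≤ mn := by
      rw [hmn]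
      apply le_min <;> positivity
    rw [← hmn] at hcard
    obtain ⟨R, hR⟩ : ∃ R : ℝ, R = 6 ^ 9 * C₁ * X ^ (1 + η / 2) * (((N : ℝ) ^ 2 * w + N / A) ^ 7 * ((N : ℝ) ^ 2 * w + (N / A) ^ 2) ^ 2 * (1 + (N : ℝ) ^ 3 / X)) := ⟨_, rfl⟩
    have hR0 : 0 ≤ R := by rw [hR]; positivity
    refine cls_card70 hR0 hcard ?_ ?_
    · -- the moment
      intro r hr
      obtain ⟨-, -, -, q4⟩ := hTj r hr
      have hsub : arc 0 G N₂ r ⊆ cn N := by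
        rw [hG]
        exact (Finset.filter_subset _ _).trans (Finset.filter_subset _ _)
      obtain ⟨W, τ, hW0, hW2, hW6, hWτ⟩ : ∃ W τ : ℝ, 0 ≤ W ∧ W ≤ 2 ∧ W ≤ 6 * w ∧ ∀ k ∈ arc 0 G N₂ r, |tt 0 k - τ| ≤ W := by
        by_cases hcase : 6 * w ≤ 2
        · refine ⟨6 * w, ctr N₂ r, by positivity, hcase, le_rfl, fun k hk => ?_⟩
          have q := Pool.Agent.Helper60.RT.arc_near hN₂1 (S := G) (by rw [hG]; exact Finset.filter_subset _ _) hk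
          rw [hw]
          calc |tt 0 k - ctr N₂ r| ≤ 6 / N₂ := q
            _ = 6 * (1 / (N₂ : ℝ)) := by ring
        · push Not at hcase
          refine ⟨2, 0, by norm_num, le_rfl, hcase.le, fun k hk => ?_⟩
          rw [sub_zero]
          exact (cn_pos70 (hsub hk)).2.2.trans (by norm_num)
      refine (H₁ F hF X N W A τ s₀ l (arc 0 G N₂ r) hX hN hNX hW0 hW2 hA1 hP.inn hsub hWτ q4).trans ?_
      refine ENNReal.ofReal_le_ofReal ?_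
      have b1 : (N : ℝ) ^ 2 * W + N / A ≤ 6 * ((N : ℝ) ^ 2 * w + N / A) := by
        have : (N : ℝ) ^ 2 * W ≤ (N : ℝ) ^ 2 * (6 * w) := by gcongr
        have h0 : 0 ≤ (N : ℝ) / A := by positivity
        linarith only [this, h0]
      have b2 : (N : ℝ) ^ 2 * W + (N / A) ^ 2 ≤ 6 * ((N : ℝ) ^ 2 * w + (N / A) ^ 2) := by
        have : (N : ℝ) ^ 2 * W ≤ (N : ℝ) ^ 2 * (6 * w) := by gcongr
        have h0 : 0 ≤ ((N : ℝ) / A) ^ 2 := by positivity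
        linarith only [this, h0]
      rw [hR]
      calc C₁ * X ^ (1 + η / 2) * ((N : ℝ) ^ 2 * W + N / A) ^ 7 * ((N : ℝ) ^ 2 * W + (N / A) ^ 2) ^ 2 * (1 + (N : ℝ) ^ 3 / X)
          ≤ C₁ * X ^ (1 + η / 2) * (6 * ((N : ℝ) ^ 2 * w + N / A)) ^ 7 * (6 * ((N : ℝ) ^ 2 * w + (N / A) ^ 2)) ^ 2 * (1 + (N : ℝ) ^ 3 / X) := by
            (clear * - hN hW0 hA1 b1 hC₁ hX b2 hw0; gcongr)
        _ = _ := by ring
    · -- the numerical inequality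
      have q := H₂ X N w lam A hX hN1 hP.lo hP.hi hw0 (by nlinarith only [hwl, hb, hlam0]) p1 p2 p3 p4 hlam0 hA1
      rw [← hmn] at q
      rw [hR, hZ, hKc]
      have e1 : X ^ (1 + η / 2) = X ^ (η / 2) * X := by
        rw [add_comm, Real.rpow_add hX0, Real.rpow_one]
      rw [e1]
      calc ((C₃ + 2) * mn) ^ 6 * (6 ^ 9 * C₁ * (X ^ (η / 2) * X) * (((N : ℝ) ^ 2 * w + N / A) ^ 7 * ((N : ℝ) ^ 2 * w + (N / A) ^ 2) ^ 2 * (1 + (N : ℝ) ^ 3 / X)))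
          = (C₃ + 2) ^ 6 * 6 ^ 9 * C₁ * X ^ (η / 2) * (X * (mn ^ 6 * (((N : ℝ) ^ 2 * w + N / A) ^ 7 * ((N : ℝ) ^ 2 * w + (N / A) ^ 2) ^ 2 * (1 + (N : ℝ) ^ 3 / X)))) := by ring
        _ ≤ (C₃ + 2) ^ 6 * 6 ^ 9 * C₁ * X ^ (η / 2) * (C₂ * FR X N) := by gcongr
        _ = _ := by ring
  -- all classes
  have hsum : ∑ r ∈ Finset.range N₂, RN F s₀ l B X (arc 0 G N₂ r) ^ (1 / 6 : ℝ) ≤ (J : ENNReal) * ENNReal.ofReal Z ^ (1 / 6 : ℝ) := by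
    have g1 : ∑ r ∈ Finset.range N₂, RN F s₀ l B X (arc 0 G N₂ r) ^ (1 / 6 : ℝ) = ∑ r ∈ T, RN F s₀ l B X (arc 0 G N₂ r) ^ (1 / 6 : ℝ) := by
      rw [hT, Finset.sum_filter]
      refine Finset.sum_congr rfl fun r _ => ?_
      by_cases he : (arc 0 G N₂ r).Nonempty
      · rw [if_pos he]
      · rw [if_neg he, Finset.not_nonempty_iff_eq_empty.1 he, RN_empty70]
        exact ENNReal.zero_rpow_of_pos (by norm_num)
    have g2 : ∀ r ∈ T, cl r ∈ Finset.range J := by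
      intro r hr
      obtain ⟨q1, -⟩ := hcl r (Finset.mem_filter.1 hr).2
      rw [Finset.mem_range, hJ, Nat.lt_succ_iff]
      exact Nat.le_log_of_pow_le (by norm_num) q1
    rw [g1, ← Finset.sum_fiberwise_of_maps_to g2]
    calc ∑ j ∈ Finset.range J, ∑ r ∈ T.filter (fun r => cl r = j), RN F s₀ l B X (arc 0 G N₂ r) ^ (1 / 6 : ℝ)
        ≤ ∑ _j ∈ Finset.range J, ENNReal.ofReal Z ^ (1 / 6 : ℝ) := Finset.sum_le_sum fun j _ => hclass j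
      _ = _ := by rw [Finset.sum_const, Finset.card_range, nsmul_eq_mul]
  -- the total
  have htot : ∑ r ∈ Finset.range N₂, (RN F s₀ l B X (arc 0 G N₂ r) + 1) ^ (1 / 6 : ℝ) ≤ (J : ENNReal) * ENNReal.ofReal Z ^ (1 / 6 : ℝ) + N₂ := by
    calc ∑ r ∈ Finset.range N₂, (RN F s₀ l B X (arc 0 G N₂ r) + 1) ^ (1 / 6 : ℝ)
        ≤ ∑ r ∈ Finset.range N₂, (RN F s₀ l B X (arc 0 G N₂ r) ^ (1 / 6 : ℝ) + 1) := by
          refine Finset.sum_le_sum fun r _ => ?_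
          refine (ENNReal.rpow_add_le_add_rpow _ _ (by norm_num) (by norm_num)).trans ?_
          rw [ENNReal.one_rpow]
      _ = ∑ r ∈ Finset.range N₂, RN F s₀ l B X (arc 0 G N₂ r) ^ (1 / 6 : ℝ) + N₂ := by
          rw [Finset.sum_add_distrib, Finset.sum_const, Finset.card_range, nsmul_eq_mul, mul_one]
      _ ≤ _ := by gcongr
  unfold SG
  refine (ENNReal.rpow_le_rpow htot (by norm_num)).trans ((six70 J N₂ hZ0).trans ?_)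
  refine ENNReal.ofReal_le_ofReal ?_
  have hXη : 1 ≤ X ^ η := Real.one_le_rpow hX hη.le
  have r1 : (J : ℝ) ^ 6 * Z ≤ (2 + 2 / δ) ^ 6 * Kc * (X ^ η * FR X N) := by
    have q1 := log70 hδ0 hX hN hNX
    rw [← hJ] at q1
    have q2 : (J : ℝ) ^ 6 ≤ ((2 + 2 / δ) * X ^ δ) ^ 6 := pow_le_pow_left₀ (Nat.cast_nonneg _) q1 6
    have q3 : (X ^ δ) ^ 6 = X ^ (η / 2) := by
      rw [← Real.rpow_natCast, ← Real.rpow_mul hX0.le, hδ]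
      congr 1
      push_cast
      ring
    have q4 : X ^ (η / 2) * X ^ (η / 2) = X ^ η := by
      rw [← Real.rpow_add hX0]
      congr 1
      ring
    calc (J : ℝ) ^ 6 * Z ≤ ((2 + 2 / δ) * X ^ δ) ^ 6 * Z := by gcongr
      _ = (2 + 2 / δ) ^ 6 * Kc * ((X ^ (η / 2) * X ^ (η / 2)) * FR X N) := by
          rw [mul_pow, q3, hZ]
          ring
      _ = _ := by rw [q4]
  have r2 : (N₂ : ℝ) ^ 6 ≤ C₄ * (X ^ η * FR X N) := by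
    have q1 : ((N₂ : ℝ) ^ 4) ^ (3 / 2 : ℝ) ≤ (X * N) ^ (3 / 2 : ℝ) := by
      refine Real.rpow_le_rpow (by positivity) ?_ (by norm_num)
      rw [eN₂, ← pow_mul, mul_comm m₂ 4]
      exact hP.k1
    have q2 : ((N₂ : ℝ) ^ 4) ^ (3 / 2 : ℝ) = (N₂ : ℝ) ^ 6 := by
      rw [← Real.rpow_natCast, ← Real.rpow_mul a2.le, ← Real.rpow_natCast]
      norm_num
    rw [q2] at q1
    have q3 : (X * N) ^ (3 / 2 : ℝ) ≤ C₄ * FR X N := by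
      have w0 : 0 < (X * N) ^ (-(1 / 4) : ℝ) := Real.rpow_pos_of_pos hK0 _
      have w4 : ((X * N) ^ (-(1 / 4) : ℝ)) ^ 4 * (X * N) = 1 := by
        rw [← Real.rpow_natCast, ← Real.rpow_mul hK0.le]
        norm_num
        rw [Real.rpow_neg_one, inv_mul_cancel₀]
        exact hK0.ne'
      have w1 : (X * N) ^ (-(1 / 4) : ℝ) ≤ 1 := Real.rpow_le_one_of_one_le_of_nonpos hK (by norm_num)
      obtain ⟨-, -, -, -, q, -⟩ := H₄ X N ((X * N) ^ (-(1 / 4) : ℝ)) 1 hX hN1 hP.hi one_pos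
        (by rw [w4]; norm_num) (by rw [w4]) w0 w1
      exact q hP.lo
    refine q1.trans (q3.trans ?_)
    gcongr
    exact le_mul_of_one_le_left hFR0 hXη
  calc 32 * ((J : ℝ) ^ 6 * Z + (N₂ : ℝ) ^ 6) ≤ 32 * ((2 + 2 / δ) ^ 6 * Kc * (X ^ η * FR X N) + C₄ * (X ^ η * FR X N)) := by
        gcongr
    _ = _ := by ring

end Pool.Agent.Helper60.GM
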